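import Pool.Agent.helper13.RF.SpecU

set_option autoImplicit false

/-! Row UFX of project RF stage 2: the elements fixed by the square of `σ` are the elements of `OO`. -/

namespace Pool.Agent.RF

open NumberField

theorem UFX_re1 : (1 : OO).re = 1 := rfl

theorem UFX_im1 : (1 : OO).im = 0 := rfl

theorem UFX_re2 : (2 : OO).re = 2 := rfl

theorem UFX_im2 : (2 : OO).im = 0 := rfl

theorem UFX_re10 : (10 : OO).re = 10 := rfl

theorem UFX_im10 : (10 : OO).im = 0 := rfl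

theorem UFX_re100 : (100 : OO).re = 100 := rfl

theorem UFX_im100 : (100 : OO).im = 0 := rfl

theorem UFX_ph : ph * star ph = (-1 : OO) := by
  apply QuadraticAlgebra.ext <;> simp [ph, UFX_re1, UFX_im1]

theorem UFX_int {x y u v : ℤ} (hR : x ^ 3 + 3 * x * y ^ 2 + y ^ 3 = 100 * u) (hS : 3 * x ^ 2 * y + 3 * x * y ^ 2 + 2 * y ^ 3 = 100 * v) :
    (10 : ℤ) ∣ x ∧ (10 : ℤ) ∣ y := by
  have hN : (x ^ 2 + x * y - y ^ 2) ^ 3 = 10 ^ 4 * (u ^ 2 + u * v - v ^ 2) := by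
    have h1 : (x ^ 2 + x * y - y ^ 2) ^ 3 = (x ^ 3 + 3 * x * y ^ 2 + y ^ 3) ^ 2 +
        (x ^ 3 + 3 * x * y ^ 2 + y ^ 3) * (3 * x ^ 2 * y + 3 * x * y ^ 2 + 2 * y ^ 3) - (3 * x ^ 2 * y + 3 * x * y ^ 2 + 2 * y ^ 3) ^ 2 := by ring
    rw [h1, hR, hS]
    ring
  -- the prime 2
  have h2 : (2 : ℤ) ∣ x ^ 2 + x * y - y ^ 2 := by
    apply Int.prime_two.dvd_of_dvd_pow (n := 3)
    rw [hN]
    exact Dvd.dvd.mul_right (by norm_num) _
  have h2' : (2 : ℤ) ∣ x ∧ (2 : ℤ) ∣ y := by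
    have h3 : (x ^ 2 + x * y - y ^ 2) % 2 = 0 := Int.emod_eq_zero_of_dvd h2
    rcases Int.emod_two_eq_zero_or_one x with hx | hx <;> rcases Int.emod_two_eq_zero_or_one y with hy | hy
    · exact ⟨Int.dvd_of_emod_eq_zero hx, Int.dvd_of_emod_eq_zero hy⟩
    all_goals
      exfalso
      simp [Int.sub_emod, Int.add_emod, Int.mul_emod, pow_two, hx, hy] at h3
  -- the prime 5
  have p5 : Prime (5 : ℤ) := Int.prime_iff_natAbs_prime.2 (by norm_num)
  have h5 : (5 : ℤ) ∣ x ^ 2 + x * y - y ^ 2 := by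
    apply p5.dvd_of_dvd_pow (n := 3)
    rw [hN]
    exact Dvd.dvd.mul_right (by norm_num) _
  have h25 : (25 : ℤ) ∣ x ^ 2 + x * y - y ^ 2 := by
    obtain ⟨c, hc⟩ := h5
    have h6 : c ^ 3 = 5 * (16 * (u ^ 2 + u * v - v ^ 2)) := by
      rw [hc] at hN
      linarith
    have h7 : (5 : ℤ) ∣ c := p5.dvd_of_dvd_pow (n := 3) ⟨_, h6⟩
    obtain ⟨e, he⟩ := h7
    exact ⟨e, by rw [hc, he]; ring⟩
  have h5y : (5 : ℤ) ∣ 2 * x + y := by
    apply p5.dvd_of_dvd_pow (n := 2)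
    have e : (2 * x + y) ^ 2 = 4 * (x ^ 2 + x * y - y ^ 2) + 5 * y ^ 2 := by ring
    rw [e]
    exact dvd_add (Dvd.dvd.mul_left h5 _) (dvd_mul_right _ _)
  have hy5 : (5 : ℤ) ∣ y := by
    apply p5.dvd_of_dvd_pow (n := 2)
    obtain ⟨c, hc⟩ := h5y
    obtain ⟨e, he⟩ := h25
    have e1 : 5 * y ^ 2 = (2 * x + y) ^ 2 - 4 * (x ^ 2 + x * y - y ^ 2) := by ring
    rw [hc, he] at e1
    exact ⟨c ^ 2 - 4 * e, by linarith⟩
  have hx5 : (5 : ℤ) ∣ x := by
    have h8 : (5 : ℤ) ∣ 2 * x := by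
      have := dvd_sub h5y hy5
      rwa [add_sub_cancel_right] at this
    rcases p5.dvd_or_dvd h8 with h9 | h9
    · norm_num at h9
    · exact h9
  constructor <;> omega

theorem UFX_ten {a b : OO} (h : a ^ 3 = 100 * b) : ∃ c : OO, a = 10 * c := by
  obtain ⟨x, y⟩ := a
  obtain ⟨u, v⟩ := b
  have hr := congrArg QuadraticAlgebra.re h
  have hi := congrArg QuadraticAlgebra.im h
  simp [pow_succ, UFX_re100, UFX_im100] at hr hi
  obtain ⟨⟨c, hc⟩, d, hd⟩ := UFX_int (x := x) (y := y) (u := u) (v := v) (by linear_combination hr) (by linear_combination hi)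
  refine ⟨⟨c, d⟩, ?_⟩
  apply QuadraticAlgebra.ext <;> simp [hc, hd, UFX_re10, UFX_im10]

theorem UFX : UFX_stmt := by
  intro D₀ F _ _ C _ x hx
  have hinj : ∀ a : OO, C.ι a = 0 → a = 0 := by
    intro a ha
    exact (C.ind a 0 (by rw [ha, map_zero, zero_mul, add_zero])).1
  have hτ : C.σ (C.σ C.w) = -C.w := by
    have h1 := congrArg C.σ C.σw
    rw [map_mul, C.σι] at h1
    have h2 : C.ι ph * (C.ι (star ph) * C.σ (C.σ C.w)) = C.w := by rw [h1, C.σw]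
    rw [← mul_assoc, ← map_mul, UFX_ph, map_neg, map_one, neg_one_mul] at h2
    linear_combination (-1 : 𝓞 F) * h2
  have hfix : ∀ z : 𝓞 F, C.σ (C.σ z) = z → ∃ a : OO, 10 * z = C.ι a := by
    intro z hz
    obtain ⟨a, b, hab⟩ := C.co z
    have h1 : C.σ (C.σ (10 * z)) = C.ι a - C.ι b * C.w := by
      rw [hab, map_add, map_add, map_mul, map_mul, C.σι, C.σι, C.σι, C.σι, star_star, star_star, hτ]
      ring
    have h2 : C.σ (C.σ (10 * z)) = 10 * z := by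
      rw [map_mul, map_mul, hz, map_ofNat, map_ofNat]
    rw [h2, hab] at h1
    have h3 : C.ι 0 + C.ι (2 * b) * C.w = 0 := by
      rw [map_zero, map_mul, map_ofNat]
      linear_combination h1
    have h4 := (C.ind _ _ h3).2
    have h5 : b = 0 := by
      have hr := congrArg QuadraticAlgebra.re h4
      have hi := congrArg QuadraticAlgebra.im h4
      apply QuadraticAlgebra.ext
      · simpa [UFX_re2, UFX_im2] using hr
      · simpa [UFX_re2, UFX_im2] using hi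
    refine ⟨a, ?_⟩
    rw [hab, h5, map_zero, zero_mul, add_zero]
  obtain ⟨a, ha⟩ := hfix x hx
  obtain ⟨a₃, ha₃⟩ := hfix (x ^ 3) (by rw [map_pow, map_pow, hx])
  have h1 : a ^ 3 = 100 * a₃ := by
    have h2 : C.ι (a ^ 3 - 100 * a₃) = 0 := by
      rw [map_sub, map_pow, map_mul, map_ofNat, ← ha, ← ha₃]
      ring
    exact sub_eq_zero.1 (hinj _ h2)
  obtain ⟨c, hc⟩ := UFX_ten h1
  refine ⟨c, ?_⟩
  rw [hc, map_mul, map_ofNat] at ha
  exact mul_left_cancel₀ (by norm_num : (10 : 𝓞 F) ≠ 0) ha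

end Pool.Agent.RF
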